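import Mathlib
import Pool.Agent.NPC.Classes
import Pool.Agent.NPC.Dec
import Pool.Agent.W983.PCG.PolyRed

set_option autoImplicit false

/-!
# Generalized PCG recognition is NP-hard

The instance consists of the adjacency matrices of a graph `G` and of a set `S` of non-edges of
`G`; the question is whether there are a tree `T` with positive real edge weights, whose leaves
are identified with the vertices of `G`, and reals `0 ≤ dmin ≤ dmax` such that
`PCG(T, dmin, dmax)` contains every edge of `G` and no pair of `S`.
-/

namespace Pool.Agent.Results.MP_9390ab_lc.GenPCGNPHard

open Pool.Agent.NPC Pool.Agent.W983.PCG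

/-- Generalized PCG recognition is `NP`-hard; so if it can be decided in polynomial time then
`P = NP`. -/
theorem result :
    NPHardP GenPCG ∧ (InPP GenPCG → ∀ L : Set (List Bool), InNP L → InP L) :=
  ⟨genPCG_hard, fun h => NPHard.collapse genPCG_hard h⟩

end Pool.Agent.Results.MP_9390ab_lc.GenPCGNPHard
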